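import Mathlib

/-!
# Monotone real circuits: the method of approximations with single variables

Positive tests `P i`, negative tests `T ω`. Every function is approximated by
`max c (max_{x ∈ S} a x)` where `c < a x` for at most `s` relevant `x`.
-/

set_option autoImplicit false
set_option linter.unusedSectionVars false
set_option linter.unusedDecidableInType false

namespace Helper54K9.Mono

open Finset

variable {V : Type*} [DecidableEq V]

/-- The input variable `v`: it is `1` if `v` belongs to the set, and `0` otherwise. -/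
noncomputable def input (v : V) : Finset V → ℝ := fun S => if v ∈ S then 1 else 0

/-- The functions which may be used by the `i`-th gate: constants, input variables and
earlier gates. -/
inductive Avail (U : Set V) (g : ℕ → Finset V → ℝ) (i : ℕ) : (Finset V → ℝ) → Prop
  | const (c : ℝ) : Avail U g i (fun _ => c)
  | input (v : V) (hv : v ∈ U) : Avail U g i (input v)
  | gate (j : ℕ) (hj : j < i) : Avail U g i (g j)

/-- The functions computed by one gate from functions in `A`: maximum and minimum of any number of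
functions, and an arbitrary monotone real function of `κ` functions. -/
inductive Gate (κ : ℕ) (A : (Finset V → ℝ) → Prop) : (Finset V → ℝ) → Prop
  | max (k : ℕ) (u : Fin (k + 1) → Finset V → ℝ) (hu : ∀ j, A (u j)) :
      Gate κ A (fun S => univ.sup' univ_nonempty (fun j => u j S))
  | min (k : ℕ) (u : Fin (k + 1) → Finset V → ℝ) (hu : ∀ j, A (u j)) :
      Gate κ A (fun S => univ.inf' univ_nonempty (fun j => u j S))
  | mono (φ : (Fin κ → ℝ) → ℝ) (hφ : Monotone φ) (u : Fin κ → Finset V → ℝ)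
      (hu : ∀ j, A (u j)) : Gate κ A (fun S => φ (fun j => u j S))

/-- Monotone real circuits with the input variables in `U`. -/
structure Circuit (κ : ℕ) (U : Set V) where
  /-- the number of gates -/
  size : ℕ
  /-- the functions computed by the gates -/
  gate : ℕ → Finset V → ℝ
  isGate : ∀ i < size, Gate κ (Avail U gate i) (gate i)
  /-- the output -/
  out : Finset V → ℝ
  isOut : Avail U gate size out

/-- the circuit accepts the set if the output is positive -/
def Circuit.Accepts {κ : ℕ} {U : Set V} (C : Circuit κ U) (S : Finset V) : Prop := 0 < C.out S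

section

variable {ι Ω : Type*} [Fintype ι] [Fintype Ω] [DecidableEq ι] [DecidableEq Ω]
  (P : ι → Finset V) (T : Ω → Finset V) (R : Finset V) (s : ℕ)

/-- approximators without the bound of the number of variables -/
def Pre (Lp : Finset ι) (Ln : Finset Ω) (h : Finset V → ℝ) (c : ℝ) (a : V → ℝ) : Prop :=
  (∀ x, c ≤ a x) ∧ (∀ i ∉ Lp, ∃ x ∈ P i, h (P i) ≤ a x) ∧
    ∀ ω ∉ Ln, c ≤ h (T ω) ∧ ∀ x ∈ T ω, a x ≤ h (T ω)

/-- approximators -/
def Ap (Lp : Finset ι) (Ln : Finset Ω) (h : Finset V → ℝ) : Prop :=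
  ∃ (c : ℝ) (a : V → ℝ), Pre P T Lp Ln h c a ∧ (R.filter (fun x => c < a x)).card ≤ s

variable {P T R s}

theorem Ap.mono {Lp Lp' : Finset ι} {Ln Ln' : Finset Ω} {h : Finset V → ℝ}
    (H : Ap P T R s Lp Ln h) (h1 : Lp ⊆ Lp') (h2 : Ln ⊆ Ln') : Ap P T R s Lp' Ln' h := by
  obtain ⟨c, a, ⟨h3, h4, h5⟩, h6⟩ := H
  exact ⟨c, a, ⟨h3, fun i hi => h4 i (fun hh => hi (h1 hh)), fun ω hω => h5 ω (fun hh => hω (h2 hh))⟩,
    h6⟩

theorem ap_const (hP : ∀ i, (P i).Nonempty) (Lp : Finset ι) (Ln : Finset Ω) (c : ℝ) :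
    Ap P T R s Lp Ln (fun _ => c) := by
  refine ⟨c, fun _ => c, ⟨fun _ => le_rfl, fun i _ => ?_, fun ω _ => ⟨le_rfl, fun _ _ => le_rfl⟩⟩,
    ?_⟩
  · obtain ⟨x, hx⟩ := hP i
    exact ⟨x, hx, le_rfl⟩
  · simp

theorem ap_input (hP : ∀ i, (P i).Nonempty) (hs : 1 ≤ s) (Lp : Finset ι) (Ln : Finset Ω) (v : V) :
    Ap P T R s Lp Ln (input v) := by
  refine ⟨0, fun x => if x = v then 1 else 0, ⟨fun x => ?_, fun i _ => ?_, fun ω _ => ⟨?_, ?_⟩⟩, ?_⟩
  · dsimp only; split_ifs <;> norm_num
  · by_cases hv : v ∈ P i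
    · refine ⟨v, hv, ?_⟩
      simp [input, hv]
    · obtain ⟨x, hx⟩ := hP i
      refine ⟨x, hx, ?_⟩
      simp only [input, hv, if_false]
      split_ifs <;> norm_num
  · unfold input
    split_ifs <;> norm_num
  · intro x hx
    dsimp only
    unfold input
    by_cases hxv : x = v
    · subst hxv
      simp [hx]
    · simp only [hxv, if_false]
      split_ifs <;> norm_num
  · refine le_trans ?_ hs
    refine (Finset.card_le_card (t := {v}) ?_).trans (by simp)
    intro x hx
    rw [mem_filter] at hx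
    by_contra hxv
    rw [mem_singleton] at hxv
    simp [hxv] at hx

/-- the tests which contain two different variables `x ∈ I`, `y ∈ J x` -/
theorem pair_card (h1 : ∀ x y, x ≠ y → (univ.filter (fun i => x ∈ P i ∧ y ∈ P i)).card ≤ 1)
    (I : Finset V) (hI : I.card ≤ s) (J : V → Finset V) (hJ : ∀ x, (J x).card ≤ s) :
    (univ.filter (fun i => ∃ x ∈ I, ∃ y ∈ J x, x ≠ y ∧ x ∈ P i ∧ y ∈ P i)).card ≤ s ^ 2 := by
  have hsub : univ.filter (fun i => ∃ x ∈ I, ∃ y ∈ J x, x ≠ y ∧ x ∈ P i ∧ y ∈ P i) ⊆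
      I.biUnion fun x => (J x).biUnion fun y =>
        univ.filter (fun i => x ≠ y ∧ x ∈ P i ∧ y ∈ P i) := by
    intro i hi
    rw [mem_filter] at hi
    obtain ⟨-, x, hx, y, hy, hxy⟩ := hi
    rw [mem_biUnion]
    refine ⟨x, hx, ?_⟩
    rw [mem_biUnion]
    exact ⟨y, hy, by simpa using hxy⟩
  refine (card_le_card hsub).trans ?_
  refine (card_biUnion_le_card_mul _ _ s fun x _ => ?_).trans ?_
  · refine (card_biUnion_le_card_mul _ _ 1 fun y _ => ?_).trans ?_
    · by_cases hxy : x = y
      · simp [hxy]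
      · refine (card_le_card ?_).trans (h1 x y hxy)
        intro i hi
        rw [mem_filter] at hi ⊢
        exact ⟨hi.1, hi.2.2⟩
    · rw [mul_one]; exact hJ x
  · rw [pow_two]
    exact Nat.mul_le_mul_right s hI

theorem trim_aux (R : Finset V) (s : ℕ) (c : ℝ) (a : V → ℝ) (hca : ∀ x, c ≤ a x) :
    ∃ c', c ≤ c' ∧ (R.filter (fun x => c' < a x)).card ≤ s ∧
      (c' = c ∨ s < (R.filter (fun x => c' ≤ a x)).card) := by
  classical
  set vals : Finset ℝ := insert c (R.image a) with hvals
  set F := vals.filter (fun v => (R.filter (fun x => v < a x)).card ≤ s) with hF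
  have hne : F.Nonempty := by
    have hv : vals.Nonempty := ⟨c, by simp [hvals]⟩
    refine ⟨vals.max' hv, ?_⟩
    rw [hF, mem_filter]
    refine ⟨max'_mem _ _, ?_⟩
    rw [filter_eq_empty_iff.2]
    · simp
    · intro x hx
      rw [not_lt]
      exact le_max' _ _ (by rw [hvals]; exact mem_insert_of_mem (mem_image_of_mem a hx))
  have hcle : ∀ v ∈ vals, c ≤ v := by
    intro v hv
    rw [hvals, mem_insert, mem_image] at hv
    rcases hv with rfl | ⟨x, -, rfl⟩
    · exact le_rfl
    · exact hca x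
  have hFmem : ∀ v, v ∈ F ↔ v ∈ vals ∧ (R.filter (fun x => v < a x)).card ≤ s := fun v => by
    rw [hF, mem_filter]
  have hmem2 := (hFmem _).1 (F.min'_mem hne)
  refine ⟨F.min' hne, hcle _ hmem2.1, hmem2.2, ?_⟩
  by_contra hcon
  rw [not_or, not_lt] at hcon
  obtain ⟨hc1, hc2⟩ := hcon
  have hclt : c < F.min' hne := lt_of_le_of_ne (hcle _ hmem2.1) (Ne.symm hc1)
  set G := vals.filter (fun v => v < F.min' hne) with hG
  have hGne : G.Nonempty := ⟨c, by rw [hG, mem_filter]; exact ⟨by simp [hvals], hclt⟩⟩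
  have hGmem : ∀ v, v ∈ G ↔ v ∈ vals ∧ v < F.min' hne := fun v => by
    rw [hG, mem_filter]
  have hwG2 := (hGmem _).1 (G.max'_mem hGne)
  have hwF : G.max' hGne ∈ F := by
    rw [hFmem]
    refine ⟨hwG2.1, le_trans (card_le_card ?_) hc2⟩
    intro x hx
    rw [mem_filter] at hx ⊢
    refine ⟨hx.1, ?_⟩
    by_contra hlt
    rw [not_le] at hlt
    have : a x ∈ G := by
      rw [hGmem]
      exact ⟨by rw [hvals]; exact mem_insert_of_mem (mem_image_of_mem a hx.1), hlt⟩
    exact absurd (le_max' _ _ this) (not_le.2 hx.2)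
  exact absurd (min'_le _ _ hwF) (not_le.2 hwG2.2)

theorem trim {D : ℕ}
    (h3 : ∀ I ⊆ R, s < I.card → D * (univ.filter (fun ω => Disjoint (T ω) I)).card ≤
      Fintype.card Ω)
    {Lp : Finset ι} {Ln : Finset Ω} {h : Finset V → ℝ} {c : ℝ} {a : V → ℝ}
    (H : Pre P T Lp Ln h c a) :
    ∃ Ln', Ln ⊆ Ln' ∧ D * Ln'.card ≤ D * Ln.card + Fintype.card Ω ∧ Ap P T R s Lp Ln' h := by
  obtain ⟨hca, hpos, hneg⟩ := H
  obtain ⟨c', hcc', hcard, hor⟩ := trim_aux R s c a hca
  have hcard' : (R.filter (fun x => c' < max (a x) c')).card ≤ s := by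
    refine le_trans (card_le_card ?_) hcard
    intro x hx
    rw [mem_filter] at hx ⊢
    refine ⟨hx.1, ?_⟩
    rcases lt_max_iff.1 hx.2 with h | h
    · exact h
    · exact absurd h (lt_irrefl _)
  have hpos' : ∀ i ∉ Lp, ∃ x ∈ P i, h (P i) ≤ max (a x) c' := fun i hi => by
    obtain ⟨x, hx, hx2⟩ := hpos i hi
    exact ⟨x, hx, hx2.trans (le_max_left _ _)⟩
  rcases hor with rfl | hbig
  · refine ⟨Ln, Subset.rfl, Nat.le_add_right _ _, c', fun x => max (a x) c', ⟨?_, hpos', ?_⟩,
      hcard'⟩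
    · intro x; exact le_max_right _ _
    · intro ω hω
      exact ⟨(hneg ω hω).1, fun x hx => max_le ((hneg ω hω).2 x hx) (hneg ω hω).1⟩
  · refine ⟨Ln ∪ univ.filter (fun ω => Disjoint (T ω) (R.filter (fun x => c' ≤ a x))),
      subset_union_left, ?_, c', fun x => max (a x) c', ⟨?_, hpos', ?_⟩, hcard'⟩
    · have h4 := h3 (R.filter (fun x => c' ≤ a x)) (filter_subset _ _) hbig
      calc D * _ ≤ D * (Ln.card + (univ.filter (fun ω => Disjoint (T ω)
            (R.filter (fun x => c' ≤ a x)))).card) := Nat.mul_le_mul_left _ (card_union_le _ _)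
        _ = D * Ln.card + D * (univ.filter (fun ω => Disjoint (T ω)
            (R.filter (fun x => c' ≤ a x)))).card := by ring
        _ ≤ _ := Nat.add_le_add_left h4 _
    · intro x; exact le_max_right _ _
    · intro ω hω
      rw [mem_union, not_or, mem_filter] at hω
      obtain ⟨hω1, hω2⟩ := hω
      have hnd : ¬ Disjoint (T ω) (R.filter (fun x => c' ≤ a x)) := fun hd =>
        hω2 ⟨mem_univ _, hd⟩
      rw [not_disjoint_iff] at hnd
      obtain ⟨x, hxT, hxI⟩ := hnd
      rw [mem_filter] at hxI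
      have hc' : c' ≤ h (T ω) := hxI.2.trans ((hneg ω hω1).2 x hxT)
      exact ⟨hc', fun y hy => max_le ((hneg ω hω1).2 y hy) hc'⟩

theorem gate_step (hP : ∀ i, (P i).Nonempty) (hPR : ∀ i, P i ⊆ R)
    (h1 : ∀ x y, x ≠ y → (univ.filter (fun i => x ∈ P i ∧ y ∈ P i)).card ≤ 1)
    {κ : ℕ} {A : (Finset V → ℝ) → Prop} {h : Finset V → ℝ} (hg : Gate κ A h)
    {Lp : Finset ι} {Ln : Finset Ω} (hA : ∀ u, A u → Ap P T R s Lp Ln u) :
    ∃ Lp' c a, Lp ⊆ Lp' ∧ Lp'.card ≤ Lp.card + (κ ^ 2 + 1) * s ^ 2 ∧ Pre P T Lp' Ln h c a := by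
  classical
  cases hg with
  | max k u hu =>
    have hex := fun j => hA (u j) (hu j)
    choose c a hpre hcard using hex
    refine ⟨Lp, univ.sup' univ_nonempty c, fun x => univ.sup' univ_nonempty (fun j => a j x),
      Subset.rfl, Nat.le_add_right _ _, ?_, ?_, ?_⟩
    · intro x
      refine sup'_le _ _ fun j _ => ?_
      exact ((hpre j).1 x).trans (le_sup' (fun j => a j x) (mem_univ j))
    · intro i hi
      obtain ⟨j, -, hj⟩ := exists_mem_eq_sup' (univ_nonempty (α := Fin (k + 1)))
        (fun j => u j (P i))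
      obtain ⟨x, hx, hx2⟩ := (hpre j).2.1 i hi
      refine ⟨x, hx, ?_⟩
      dsimp only
      rw [hj]
      exact hx2.trans (le_sup' (fun j => a j x) (mem_univ j))
    · intro ω hω
      refine ⟨sup'_le _ _ fun j _ => ?_, fun x hx => sup'_le _ _ fun j _ => ?_⟩
      · exact ((hpre j).2.2 ω hω).1.trans (le_sup' (fun j => u j (T ω)) (mem_univ j))
      · exact (((hpre j).2.2 ω hω).2 x hx).trans (le_sup' (fun j => u j (T ω)) (mem_univ j))
  | min k u hu =>
    have hex := fun j => hA (u j) (hu j)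
    choose c a hpre hcard using hex
    obtain ⟨j0, -, hj0⟩ := exists_mem_eq_inf' (univ_nonempty (α := Fin (k + 1))) c
    have hjx : ∀ x, ∃ j, univ.inf' univ_nonempty (fun j => a j x) = a j x := fun x => by
      obtain ⟨j, -, hj⟩ := exists_mem_eq_inf' (univ_nonempty (α := Fin (k + 1)))
        (fun j => a j x)
      exact ⟨j, hj⟩
    choose J hJ using hjx
    set bad := univ.filter (fun i => ∃ x ∈ R.filter (fun x => c j0 < a j0 x),
      ∃ y ∈ R.filter (fun y => c (J x) < a (J x) y), x ≠ y ∧ x ∈ P i ∧ y ∈ P i) with hbad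
    have hbadcard : bad.card ≤ s ^ 2 :=
      pair_card h1 _ (hcard j0) (fun x => R.filter (fun y => c (J x) < a (J x) y))
        (fun x => hcard (J x))
    refine ⟨Lp ∪ bad, univ.inf' univ_nonempty c, fun x => univ.inf' univ_nonempty (fun j => a j x),
      subset_union_left, ?_, ?_, ?_, ?_⟩
    · refine (card_union_le _ _).trans (Nat.add_le_add_left (hbadcard.trans ?_) _)
      nlinarith [Nat.zero_le (κ ^ 2 * s ^ 2)]
    · intro x
      refine le_inf' _ _ fun j _ => ?_
      exact (inf'_le c (mem_univ j)).trans ((hpre j).1 x)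
    · intro i hi
      rw [mem_union, not_or] at hi
      obtain ⟨hi1, hi2⟩ := hi
      by_contra hcon
      push Not at hcon
      have hxj : ∀ j, ∃ x ∈ P i, u j (P i) ≤ a j x := fun j => (hpre j).2.1 i hi1
      choose X hX hX2 using hxj
      apply hi2
      have hx0 := hcon (X j0) (hX j0)
      rw [hJ (X j0)] at hx0
      have hle : ∀ j, univ.inf' univ_nonempty (fun j => u j (P i)) ≤ u j (P i) := fun j =>
        inf'_le (fun j => u j (P i)) (mem_univ j)
      have hc0 : c j0 ≤ a (J (X j0)) (X j0) := by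
        rw [← hJ, ← hj0]
        refine le_inf' _ _ fun j _ => ?_
        exact (inf'_le c (mem_univ j)).trans ((hpre j).1 _)
      rw [hbad, mem_filter]
      refine ⟨mem_univ _, X j0, ?_, X (J (X j0)), ?_, ?_, hX _, hX _⟩
      · rw [mem_filter]
        exact ⟨hPR i (hX j0), lt_of_le_of_lt hc0 (lt_of_lt_of_le hx0 ((hle j0).trans (hX2 j0)))⟩
      · rw [mem_filter]
        exact ⟨hPR i (hX _), lt_of_le_of_lt ((hpre _).1 (X j0))
          (lt_of_lt_of_le hx0 ((hle _).trans (hX2 _)))⟩
      · intro heq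
        have h6 := lt_of_lt_of_le hx0 ((hle _).trans (hX2 (J (X j0))))
        rw [← heq] at h6
        exact lt_irrefl _ h6
    · intro ω hω
      refine ⟨le_inf' _ _ fun j _ => ?_, fun x hx => le_inf' _ _ fun j _ => ?_⟩
      · exact (inf'_le c (mem_univ j)).trans ((hpre j).2.2 ω hω).1
      · exact (inf'_le (fun j => a j x) (mem_univ j)).trans (((hpre j).2.2 ω hω).2 x hx)
  | mono φ hφ u hu =>
    have hex := fun j => hA (u j) (hu j)
    choose c a hpre hcard using hex
    set B : Fin κ × Fin κ → Finset ι := fun q => univ.filter (fun i =>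
      ∃ x ∈ R.filter (fun x => c q.1 < a q.1 x),
      ∃ y ∈ R.filter (fun y => c q.2 < a q.2 y), x ≠ y ∧ x ∈ P i ∧ y ∈ P i) with hB
    have hBcard : ∀ q, (B q).card ≤ s ^ 2 := fun q =>
      pair_card h1 _ (hcard q.1) (fun _ => R.filter (fun y => c q.2 < a q.2 y))
        (fun x => hcard q.2)
    refine ⟨Lp ∪ univ.biUnion B, φ c, fun x => φ (fun j => a j x),
      subset_union_left, ?_, ?_, ?_, ?_⟩
    · refine (card_union_le _ _).trans (Nat.add_le_add_left ?_ _)
      refine (card_biUnion_le_card_mul _ _ (s ^ 2) fun q _ => hBcard q).trans ?_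
      rw [card_univ, Fintype.card_prod, Fintype.card_fin]
      nlinarith [Nat.zero_le (s ^ 2)]
    · intro x
      exact hφ fun j => (hpre j).1 x
    · intro i hi
      rw [mem_union, not_or] at hi
      obtain ⟨hi1, hi2⟩ := hi
      have hxj : ∀ j, ∃ x ∈ P i, u j (P i) ≤ a j x := fun j => (hpre j).2.1 i hi1
      choose X hX hX2 using hxj
      by_cases hbig : ∃ j, c j < a j (X j)
      · obtain ⟨j, hj⟩ := hbig
        refine ⟨X j, hX j, hφ fun j' => ?_⟩
        dsimp only
        by_cases hj' : c j' < a j' (X j')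
        · have heq : X j' = X j := by
            by_contra hne
            apply hi2
            rw [mem_biUnion]
            refine ⟨(j', j), mem_univ _, ?_⟩
            rw [hB, mem_filter]
            exact ⟨mem_univ _, X j', mem_filter.2 ⟨hPR i (hX _), hj'⟩, X j,
              mem_filter.2 ⟨hPR i (hX _), hj⟩, hne, hX _, hX _⟩
          rw [← heq]
          exact hX2 j'
        · exact (hX2 j').trans ((not_lt.1 hj').trans ((hpre j').1 _))
      · push Not at hbig
        obtain ⟨x, hx⟩ := hP i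
        exact ⟨x, hx, hφ fun j => (hX2 j).trans ((hbig j).trans ((hpre j).1 x))⟩
    · intro ω hω
      exact ⟨hφ fun j => ((hpre j).2.2 ω hω).1, fun x hx => hφ fun j =>
        ((hpre j).2.2 ω hω).2 x hx⟩

theorem stages (hP : ∀ i, (P i).Nonempty) (hPR : ∀ i, P i ⊆ R) (hs : 1 ≤ s) {D : ℕ}
    (h1 : ∀ x y, x ≠ y → (univ.filter (fun i => x ∈ P i ∧ y ∈ P i)).card ≤ 1)
    (h3 : ∀ I ⊆ R, s < I.card → D * (univ.filter (fun ω => Disjoint (T ω) I)).card ≤
      Fintype.card Ω)
    {κ : ℕ} {U : Set V} (C : Circuit κ U) : ∀ i ≤ C.size, ∃ (Lp : Finset ι) (Ln : Finset Ω),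
      Lp.card ≤ i * ((κ ^ 2 + 1) * s ^ 2) ∧ D * Ln.card ≤ i * Fintype.card Ω ∧
      ∀ u, Avail U C.gate i u → Ap P T R s Lp Ln u := by
  intro i
  induction i with
  | zero =>
    intro _
    refine ⟨∅, ∅, by simp, by simp, fun u hu => ?_⟩
    cases hu with
    | const c => exact ap_const hP _ _ c
    | input v hv => exact ap_input hP hs _ _ v
    | gate j hj => exact absurd hj (Nat.not_lt_zero _)
  | succ i ih =>
    intro hi
    obtain ⟨Lp, Ln, hLp, hLn, hall⟩ := ih (Nat.le_of_succ_le hi)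
    obtain ⟨Lp', c, a, hsub, hcard, hpre⟩ := gate_step hP hPR h1 (C.isGate i hi) hall
    obtain ⟨Ln', hsub', hcard', hap⟩ := trim h3 hpre
    refine ⟨Lp', Ln', ?_, ?_, fun u hu => ?_⟩
    · refine hcard.trans ?_
      have h4 := Nat.succ_mul i ((κ ^ 2 + 1) * s ^ 2)
      rw [Nat.succ_eq_add_one] at h4
      rw [h4]
      exact Nat.add_le_add_right hLp _
    · refine hcard'.trans ?_
      have h4 := Nat.succ_mul i (Fintype.card Ω)
      rw [Nat.succ_eq_add_one] at h4
      rw [h4]
      exact Nat.add_le_add_right hLn _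
    · cases hu with
      | const c => exact ap_const hP _ _ c
      | input v hv => exact ap_input hP hs _ _ v
      | gate j hj =>
        rcases Nat.lt_succ_iff_lt_or_eq.1 hj with hj | rfl
        · exact (hall _ (Avail.gate j hj)).mono hsub hsub'
        · exact hap

/-- The main estimate for one circuit. -/
theorem main (hP : ∀ i, (P i).Nonempty) (hPR : ∀ i, P i ⊆ R) (hs : 1 ≤ s) {D N : ℕ}
    (h1 : ∀ x y, x ≠ y → (univ.filter (fun i => x ∈ P i ∧ y ∈ P i)).card ≤ 1)
    (h2 : ∀ x, (univ.filter (fun i => x ∈ P i)).card ≤ N)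
    (h3 : ∀ I ⊆ R, s < I.card → D * (univ.filter (fun ω => Disjoint (T ω) I)).card ≤
      Fintype.card Ω)
    {κ : ℕ} {U : Set V} (C : Circuit κ U) [DecidablePred C.Accepts] :
    D * Fintype.card Ω ≤ D * (univ.filter (fun ω => C.Accepts (T ω))).card +
        C.size * Fintype.card Ω ∨
      Fintype.card ι ≤ (univ.filter (fun i => ¬ C.Accepts (P i))).card +
        C.size * ((κ ^ 2 + 1) * s ^ 2) + s * N := by
  obtain ⟨Lp, Ln, hLp, hLn, hall⟩ := stages (T := T) hP hPR hs h1 h3 C C.size le_rfl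
  obtain ⟨c, a, ⟨hca, hpos, hneg⟩, hcard⟩ := hall _ C.isOut
  by_cases hc : 0 < c
  · left
    have hcov : (univ : Finset Ω) ⊆ univ.filter (fun ω => C.Accepts (T ω)) ∪ Ln := by
      intro ω _
      rw [mem_union, mem_filter]
      by_cases hω : ω ∈ Ln
      · exact Or.inr hω
      · exact Or.inl ⟨mem_univ _, lt_of_lt_of_le hc (hneg ω hω).1⟩
    have h4 := (card_le_card hcov).trans (card_union_le _ _)
    rw [card_univ] at h4
    calc D * Fintype.card Ω ≤ D * ((univ.filter (fun ω => C.Accepts (T ω))).card + Ln.card) :=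
          Nat.mul_le_mul_left _ h4
      _ = D * (univ.filter (fun ω => C.Accepts (T ω))).card + D * Ln.card := by ring
      _ ≤ _ := Nat.add_le_add_left hLn _
  · right
    rw [not_lt] at hc
    have hcov : (univ : Finset ι) ⊆ (univ.filter (fun i => ¬ C.Accepts (P i)) ∪ Lp) ∪
        (R.filter (fun x => c < a x)).biUnion (fun x => univ.filter (fun i => x ∈ P i)) := by
      intro i _
      rw [mem_union, mem_union]
      by_cases hi : i ∈ Lp
      · exact Or.inl (Or.inr hi)
      · by_cases hacc : C.Accepts (P i)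
        · right
          obtain ⟨x, hx, hx2⟩ := hpos i hi
          rw [mem_biUnion]
          exact ⟨x, mem_filter.2 ⟨hPR i hx, lt_of_le_of_lt hc (lt_of_lt_of_le hacc hx2)⟩,
            mem_filter.2 ⟨mem_univ _, hx⟩⟩
        · exact Or.inl (Or.inl (mem_filter.2 ⟨mem_univ _, hacc⟩))
    have h4 := (card_le_card hcov).trans (card_union_le _ _)
    have h5 := card_union_le (univ.filter (fun i => ¬ C.Accepts (P i))) Lp
    have h6 := card_biUnion_le_card_mul (R.filter (fun x => c < a x))
      (fun x => univ.filter (fun i => x ∈ P i)) N (fun x _ => h2 x)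
    have h7 := Nat.mul_le_mul_right N hcard
    rw [card_univ] at h4
    omega

end

end Helper54K9.Mono
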