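import Mathlib

/-!
# Pairwise independence of affine functions over `ZMod p`, and Chebyshev's inequality
-/

set_option autoImplicit false
set_option linter.unusedSectionVars false

namespace Helper54K9.Mono

open Finset

/-- Chebyshev's inequality for uncorrelated events of probability at least `1 / 4`. -/
theorem chebyshev {V Ω₁ : Type*} [Fintype Ω₁] [DecidableEq V] (G : Ω₁ → V → Prop)
    [∀ ω x, Decidable (G ω x)] (I : Finset V) (q : ℝ) (hq : 1 / 4 ≤ q)
    (h0 : ∀ x ∈ I, ∀ y ∈ I, x ≠ y →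
      ∑ ω, ((if G ω x then (1 : ℝ) else 0) - q) * ((if G ω y then (1 : ℝ) else 0) - q) = 0)
    (h1 : ∀ x ∈ I, ∑ ω, ((if G ω x then (1 : ℝ) else 0) - q) ^ 2 ≤ Fintype.card Ω₁ / 4) :
    I.card * (univ.filter (fun a : Ω₁ => 8 * (I.filter (G a)).card < I.card)).card ≤
      16 * Fintype.card Ω₁ := by
  rcases Nat.eq_zero_or_pos I.card with hI0 | hIpos
  · rw [hI0, zero_mul]; exact Nat.zero_le _
  set f : Ω₁ → V → ℝ := fun ω x => (if G ω x then (1 : ℝ) else 0) - q with hf
  set bad := univ.filter (fun a : Ω₁ => 8 * (I.filter (G a)).card < I.card) with hbad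
  have hsq : ∑ ω, (∑ x ∈ I, f ω x) ^ 2 ≤ I.card * (Fintype.card Ω₁ / 4 : ℝ) := by
    have h2 : ∀ ω, (∑ x ∈ I, f ω x) ^ 2 = ∑ x ∈ I, ∑ y ∈ I, f ω x * f ω y := fun ω => by
      rw [pow_two, sum_mul_sum]
    simp_rw [h2]
    rw [sum_comm]
    calc ∑ x ∈ I, ∑ ω, ∑ y ∈ I, f ω x * f ω y = ∑ x ∈ I, ∑ y ∈ I, ∑ ω, f ω x * f ω y := by
          refine sum_congr rfl fun x _ => ?_
          rw [sum_comm]
      _ = ∑ x ∈ I, ∑ ω, f ω x ^ 2 := by
          refine sum_congr rfl fun x hx => ?_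
          rw [sum_eq_single x]
          · refine sum_congr rfl fun ω _ => ?_
            rw [pow_two]
          · intro y hy hyx
            exact h0 x hx y hy (Ne.symm hyx)
          · intro hx'; exact absurd hx hx'
      _ ≤ ∑ x ∈ I, (Fintype.card Ω₁ / 4 : ℝ) := sum_le_sum fun x hx => h1 x hx
      _ = _ := by rw [sum_const, nsmul_eq_mul]
  have hb : ∀ ω ∈ bad, ((I.card : ℝ) / 8) ^ 2 ≤ (∑ x ∈ I, f ω x) ^ 2 := by
    intro ω hω
    rw [hbad, mem_filter] at hω
    have h3 : ∑ x ∈ I, f ω x = (I.filter (G ω)).card - I.card * q := by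
      rw [hf]
      simp only [sum_sub_distrib, sum_const, nsmul_eq_mul]
      rw [← sum_filter, sum_const, nsmul_eq_mul, mul_one]
    have h4 : (8 : ℝ) * (I.filter (G ω)).card < I.card := by exact_mod_cast hω.2
    have h5 : (0 : ℝ) < I.card := by exact_mod_cast hIpos
    rw [h3]
    have h6 : (I.card : ℝ) / 8 ≤ I.card * q - (I.filter (G ω)).card := by nlinarith
    have h7 : ((I.filter (G ω)).card - I.card * q : ℝ) ^ 2 =
      (I.card * q - (I.filter (G ω)).card) ^ 2 := by ring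
    rw [h7]
    exact pow_le_pow_left₀ (by positivity) h6 2
  have hsum : bad.card * ((I.card : ℝ) / 8) ^ 2 ≤ I.card * (Fintype.card Ω₁ / 4 : ℝ) := by
    calc bad.card * ((I.card : ℝ) / 8) ^ 2 = ∑ ω ∈ bad, ((I.card : ℝ) / 8) ^ 2 := by
          rw [sum_const, nsmul_eq_mul]
      _ ≤ ∑ ω ∈ bad, (∑ x ∈ I, f ω x) ^ 2 := sum_le_sum hb
      _ ≤ ∑ ω, (∑ x ∈ I, f ω x) ^ 2 :=
          sum_le_sum_of_subset_of_nonneg (subset_univ _) fun _ _ _ => sq_nonneg _
      _ ≤ _ := hsq
  have h5 : (0 : ℝ) < I.card := by exact_mod_cast hIpos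
  have h8 : (I.card : ℝ) * bad.card ≤ 16 * Fintype.card Ω₁ := by
    have h9 : (I.card : ℝ) * ((I.card : ℝ) * bad.card) ≤ I.card * (16 * Fintype.card Ω₁) := by
      nlinarith
    exact le_of_mul_le_mul_left h9 h5
  exact_mod_cast h8

variable {p : ℕ} [Fact p.Prime]

/-- one coordinate of a negative test -/
abbrev Om (p : ℕ) : Type := ZMod p × ZMod p × ZMod p

/-- the constant term: `b`, `b'` or `b + b'` -/
def pr (k : Fin 3) (ω : Om p) : ZMod p :=
  if k = 0 then ω.2.1 else if k = 1 then ω.2.2 else ω.2.1 + ω.2.2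

theorem sum_pr (k : Fin 3) (F : ZMod p → ZMod p → ℝ) :
    ∑ ω : Om p, F ω.1 (pr k ω) = p * ∑ a, ∑ c, F a c := by
  rw [Fintype.sum_prod_type, mul_sum]
  refine sum_congr rfl fun a _ => ?_
  rw [Fintype.sum_prod_type]
  have hc : ∀ x : ℝ, ∑ _b : ZMod p, x = p * x := fun x => by
    rw [sum_const, card_univ, ZMod.card, nsmul_eq_mul]
  fin_cases k
  · simp only [pr, Fin.zero_eta, if_true]
    rw [mul_sum]
    exact sum_congr rfl fun b _ => hc _
  · have h : (1 : Fin 3) ≠ 0 := by decide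
    simp only [pr, Fin.mk_one, h, if_false, if_true]
    exact hc _
  · have h0 : (2 : Fin 3) ≠ 0 := by decide
    have h1 : (2 : Fin 3) ≠ 1 := by decide
    simp only [pr, Fin.reduceFinMk, h0, h1, if_false]
    rw [← hc]
    refine sum_congr rfl fun b _ => ?_
    exact Equiv.sum_comp (Equiv.addLeft b) (fun c => F a c)

/-- uncorrelatedness of affine functions -/
theorem sum_affine (g : ZMod p → ℝ) (hg : ∑ t, g t = 0) {u v : ZMod p} (huv : u ≠ v) :
    ∑ a, ∑ c, g (a * u + c) * g (a * v + c) = 0 := by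
  have hd : v - u ≠ 0 := sub_ne_zero.2 (Ne.symm huv)
  have h1 : ∀ a : ZMod p, ∑ c, g (a * u + c) * g (a * v + c) =
      ∑ c, g c * g (a * (v - u) + c) := fun a => by
    rw [← Equiv.sum_comp (Equiv.addLeft (-(a * u))) (fun c => g (a * u + c) * g (a * v + c))]
    refine sum_congr rfl fun c _ => ?_
    simp only [Equiv.coe_addLeft]
    congr 2 <;> ring
  simp_rw [h1]
  rw [sum_comm]
  refine sum_eq_zero fun c _ => ?_
  rw [← mul_sum]
  have h2 := ((Equiv.mulRight₀ (v - u) hd).trans (Equiv.addRight c)).sum_comp g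
  have h3 : ∑ a : ZMod p, g (a * (v - u) + c) = 0 := by
    rw [← hg, ← h2]
    rfl
  rw [h3, mul_zero]

/-- the event that the affine function of type `k` takes a value in `J` at `x` -/
def Good (k : Fin 3) (J : Finset (ZMod p)) (ω : Om p) (x : ℕ) : Prop :=
  ω.1 * (x : ZMod p) + pr k ω ∈ J

instance (k : Fin 3) (J : Finset (ZMod p)) (ω : Om p) (x : ℕ) : Decidable (Good k J ω x) := by
  unfold Good; infer_instance

theorem good_one (k : Fin 3) (J : Finset (ZMod p)) (hJ : p ≤ 4 * J.card) (I : Finset ℕ)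
    (hI : ∀ x ∈ I, x < p) :
    I.card * (univ.filter (fun a : Om p => 8 * (I.filter (Good k J a)).card < I.card)).card ≤
      16 * Fintype.card (Om p) := by
  have hp : 0 < p := (Fact.out : p.Prime).pos
  have hpR : (0 : ℝ) < p := by exact_mod_cast hp
  set q : ℝ := J.card / p with hq
  have hqp : q * p = J.card := by rw [hq]; field_simp
  have hq4 : 1 / 4 ≤ q := by
    rw [hq, div_le_div_iff₀ (by norm_num) hpR]
    have : (p : ℝ) ≤ 4 * J.card := by exact_mod_cast hJ
    linarith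
  set g : ZMod p → ℝ := fun t => (if t ∈ J then (1 : ℝ) else 0) - q with hg
  have hJsum : ∑ t : ZMod p, (if t ∈ J then (1 : ℝ) else 0) = J.card := by
    rw [← sum_filter, sum_const, nsmul_eq_mul, mul_one, filter_mem_eq_inter, univ_inter]
  have hg0 : ∑ t, g t = 0 := by
    rw [hg]
    simp only [sum_sub_distrib]
    rw [hJsum, sum_const, card_univ, ZMod.card, nsmul_eq_mul]
    linarith
  have hg2 : ∑ t, g t ^ 2 ≤ p / 4 := by
    have h1 : ∀ t, g t ^ 2 = (if t ∈ J then (1 : ℝ) else 0) * (1 - 2 * q) + q ^ 2 := fun t => by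
      rw [hg]; dsimp only; split_ifs <;> ring
    simp_rw [h1]
    rw [sum_add_distrib, ← sum_mul, hJsum, sum_const, card_univ, ZMod.card, nsmul_eq_mul, ← hqp]
    nlinarith [sq_nonneg (q - 1 / 2)]
  refine chebyshev _ I q hq4 ?_ ?_
  · intro x hx y hy hxy
    have hne : (x : ZMod p) ≠ (y : ZMod p) := by
      intro h
      rw [ZMod.natCast_eq_natCast_iff] at h
      exact hxy (Nat.ModEq.eq_of_lt_of_lt h (hI x hx) (hI y hy))
    have h2 := sum_pr k (fun a c : ZMod p => g (a * (x : ZMod p) + c) * g (a * (y : ZMod p) + c))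
    rw [sum_affine g hg0 hne, mul_zero] at h2
    refine Eq.trans ?_ h2
    rfl
  · intro x hx
    have h2 := sum_pr k (fun a c : ZMod p => g (a * (x : ZMod p) + c) ^ 2)
    have h3 : ∀ a : ZMod p, ∑ c : ZMod p, g (a * (x : ZMod p) + c) ^ 2 = ∑ t, g t ^ 2 := fun a =>
      Equiv.sum_comp (Equiv.addLeft (a * (x : ZMod p))) (fun t => g t ^ 2)
    simp_rw [h3] at h2
    rw [sum_const, card_univ, ZMod.card, nsmul_eq_mul] at h2
    have h4 : ∑ ω : Om p, ((if Good k J ω x then (1 : ℝ) else 0) - q) ^ 2 =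
        p * (p * ∑ t, g t ^ 2) := by
      rw [← h2]; rfl
    rw [h4]
    have hcard : (Fintype.card (Om p) : ℝ) = p * (p * p) := by
      rw [Fintype.card_prod, Fintype.card_prod, ZMod.card]; push_cast; ring
    rw [hcard]
    calc (p : ℝ) * (p * ∑ t, g t ^ 2) ≤ p * (p * (p / 4)) := by gcongr
      _ = _ := by ring

end Helper54K9.Mono
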