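import Mathlib

/-!
# Random majorities hit large sets

`Ω₁` is a finite probability space, `G ω x` says that `x` is good for `ω`. If for every set `I` most
`ω` have at least `|I| / 8` good elements, then for all but very few tuples some element of `I`
is bad for less than `c` coordinates.
-/

set_option autoImplicit false

namespace Helper54K9.Mono

open Finset

variable {V Ω₁ : Type*} [Fintype Ω₁] [DecidableEq V] (G : Ω₁ → V → Prop)
  [∀ ω x, Decidable (G ω x)]

/-- the number of coordinates for which `x` is bad -/
def miss {m : ℕ} (ω : Fin m → Ω₁) (x : V) : ℕ := ∑ j, if G (ω j) x then 0 else 1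

/-- the number of tuples such that every `x ∈ I` is bad for at least `c` coordinates -/
def nBad (m c : ℕ) (I : Finset V) : ℕ :=
  (univ.filter (fun ω : Fin m → Ω₁ => ∀ x ∈ I, c ≤ miss G ω x)).card

variable {G}

theorem nBad_le (m c : ℕ) (I : Finset V) : nBad G m c I ≤ Fintype.card Ω₁ ^ m := by
  unfold nBad
  refine (card_le_univ _).trans ?_
  rw [Fintype.card_fun, Fintype.card_fin]

theorem miss_cons {m : ℕ} (a : Ω₁) (ω : Fin m → Ω₁) (x : V) :
    miss G (Fin.cons a ω : Fin (m + 1) → Ω₁) x = (if G a x then 0 else 1) + miss G ω x := by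
  unfold miss
  rw [Fin.sum_univ_succ]
  simp

theorem nBad_succ (m c : ℕ) (I : Finset V) :
    nBad G (m + 1) (c + 1) I ≤ ∑ a : Ω₁, if 8 * (I.filter (G a)).card < I.card then nBad G m c I
      else nBad G m (c + 1) (I.filter (G a)) := by
  have h1 : nBad G (m + 1) (c + 1) I = ∑ a : Ω₁,
      (univ.filter (fun ω : Fin m → Ω₁ => ∀ x ∈ I, c + 1 ≤
        miss G (Fin.cons a ω : Fin (m + 1) → Ω₁) x)).card := by
    unfold nBad
    rw [card_filter]
    simp_rw [card_filter]
    rw [← (Fin.consEquiv (fun _ : Fin (m + 1) => Ω₁)).sum_comp, Fintype.sum_prod_type]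
    rfl
  rw [h1]
  refine sum_le_sum fun a _ => ?_
  split_ifs with h
  · unfold nBad
    refine card_le_card fun ω hω => ?_
    rw [mem_filter] at hω ⊢
    refine ⟨mem_univ _, fun x hx => ?_⟩
    have h2 := hω.2 x hx
    rw [miss_cons] at h2
    split_ifs at h2 <;> omega
  · unfold nBad
    refine card_le_card fun ω hω => ?_
    rw [mem_filter] at hω ⊢
    refine ⟨mem_univ _, fun x hx => ?_⟩
    rw [mem_filter] at hx
    have h2 := hω.2 x hx.1
    rw [miss_cons, if_pos hx.2, zero_add] at h2
    exact h2

theorem hit (R : Finset V) {L : ℕ} (hL : 1 ≤ L)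
    (hone : ∀ I ⊆ R, I.card * (univ.filter (fun a : Ω₁ => 8 * (I.filter (G a)).card < I.card)).card ≤
      16 * Fintype.card Ω₁) :
    ∀ m c : ℕ, ∀ I ⊆ R, 8 ^ m * L ≤ I.card →
      nBad G m c I * L ^ c ≤ 16 ^ c * 2 ^ m * Fintype.card Ω₁ ^ m := by
  intro m
  induction m with
  | zero =>
    intro c I hI hcard
    cases c with
    | zero => simpa using nBad_le (G := G) 0 0 I
    | succ c =>
      have h0 : nBad G 0 (c + 1) I = 0 := by
        unfold nBad
        rw [card_eq_zero, filter_eq_empty_iff]
        intro ω _ h
        have hne : I.Nonempty := by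
          rw [← card_pos]; omega
        obtain ⟨x, hx⟩ := hne
        have := h x hx
        simp [miss] at this
      rw [h0, zero_mul]
      exact Nat.zero_le _
  | succ m ih =>
    intro c I hI hcard
    cases c with
    | zero =>
      rw [pow_zero, mul_one, pow_zero, one_mul]
      exact (nBad_le (m + 1) 0 I).trans (Nat.le_mul_of_pos_left _ (by positivity))
    | succ c =>
      set q := Fintype.card Ω₁ with hq
      set A := 16 ^ c * 2 ^ m * q ^ m with hA
      have h1 := nBad_succ (G := G) m c I
      have hIL : L ≤ I.card := le_trans (Nat.le_mul_of_pos_left _ (by positivity)) hcard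
      have hbad := hone I hI
      have hbadL : L * (univ.filter (fun a : Ω₁ => 8 * (I.filter (G a)).card < I.card)).card ≤
          16 * q := (Nat.mul_le_mul_right _ hIL).trans hbad
      have hgood : ∀ a : Ω₁, (if 8 * (I.filter (G a)).card < I.card then nBad G m c I
          else nBad G m (c + 1) (I.filter (G a))) * L ^ (c + 1) ≤
          (if 8 * (I.filter (G a)).card < I.card then L * A else 0) + 16 * A := by
        intro a
        split_ifs with h
        · have h2 := ih c I hI (le_trans (Nat.mul_le_mul_right _
            (Nat.pow_le_pow_right (by norm_num) (Nat.le_succ m))) hcard)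
          calc nBad G m c I * L ^ (c + 1) = L * (nBad G m c I * L ^ c) := by ring
            _ ≤ L * A := Nat.mul_le_mul_left _ h2
            _ ≤ _ := Nat.le_add_right _ _
        · have h2 := ih (c + 1) (I.filter (G a)) ((filter_subset _ _).trans hI) (by
            rw [pow_succ] at hcard
            have : 8 * (8 ^ m * L) ≤ 8 * (I.filter (G a)).card := by
              refine le_trans (le_of_eq (by ring)) (hcard.trans (not_lt.1 h))
            omega)
          calc nBad G m (c + 1) (I.filter (G a)) * L ^ (c + 1) ≤ 16 ^ (c + 1) * 2 ^ m * q ^ m := h2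
            _ = 0 + 16 * A := by rw [hA]; ring
      calc nBad G (m + 1) (c + 1) I * L ^ (c + 1)
          ≤ (∑ a : Ω₁, if 8 * (I.filter (G a)).card < I.card then nBad G m c I
              else nBad G m (c + 1) (I.filter (G a))) * L ^ (c + 1) := Nat.mul_le_mul_right _ h1
        _ = ∑ a : Ω₁, (if 8 * (I.filter (G a)).card < I.card then nBad G m c I
              else nBad G m (c + 1) (I.filter (G a))) * L ^ (c + 1) := by rw [sum_mul]
        _ ≤ ∑ a : Ω₁, ((if 8 * (I.filter (G a)).card < I.card then L * A else 0) + 16 * A) :=
            sum_le_sum fun a _ => hgood a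
        _ = L * (univ.filter (fun a : Ω₁ => 8 * (I.filter (G a)).card < I.card)).card * A +
              16 * q * A := by
            rw [sum_add_distrib, ← sum_filter, sum_const, sum_const, card_univ, smul_eq_mul,
              smul_eq_mul]
            ring
        _ ≤ 16 * q * A + 16 * q * A := Nat.add_le_add_right (Nat.mul_le_mul_right _ hbadL) _
        _ = 16 ^ (c + 1) * 2 ^ (m + 1) * q ^ (m + 1) := by rw [hA]; ring

end Helper54K9.Mono
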