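import Mathlib
import Pool.Agent.Helper54K9.Mono.Approx
import Pool.Agent.Helper54K9.Mono.Hit
import Pool.Agent.Helper54K9.Mono.Fp

/-!
# The tests for 3SUM
-/

set_option autoImplicit false
set_option linter.unusedSectionVars false

namespace Helper54K9.Mono

open Finset

/-- three different elements of the set have sum zero -/
def HasZeroSum (S : Finset ℤ) : Prop :=
  ∃ a ∈ S, ∃ b ∈ S, ∃ c ∈ S, a ≠ b ∧ a ≠ c ∧ b ≠ c ∧ a + b + c = 0

/-- the three kinds of integers -/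
def emb (N : ℕ) (k : Fin 3) (x : ℕ) : ℤ :=
  if k = 0 then 4 * N + x else if k = 1 then 8 * N + x else -(12 * N + x)

theorem emb_zero (N x : ℕ) : emb N 0 x = 4 * N + x := rfl
theorem emb_one (N x : ℕ) : emb N 1 x = 8 * N + x := rfl
theorem emb_two (N x : ℕ) : emb N 2 x = -(12 * N + x) := rfl

def len (N : ℕ) (k : Fin 3) : ℕ := if k = 2 then 2 * N else N

def rel (N : ℕ) : Finset ℤ := univ.biUnion fun k : Fin 3 => (range (len N k)).image (emb N k)

theorem mem_rel {N : ℕ} {u : ℤ} : u ∈ rel N ↔ ∃ k : Fin 3, ∃ x < len N k, emb N k x = u := by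
  simp [rel]

theorem rel_bound {N : ℕ} {u : ℤ} (h : u ∈ rel N) : -(14 * N) ≤ u ∧ u ≤ 14 * N := by
  rw [mem_rel] at h
  obtain ⟨k, x, hx, rfl⟩ := h
  fin_cases k <;> simp [emb, len] at hx ⊢ <;> omega

theorem card_rel (N : ℕ) : (rel N).card ≤ 4 * N := by
  unfold rel
  refine card_biUnion_le.trans ?_
  refine (sum_le_sum fun k _ => card_image_le).trans ?_
  simp [Fin.sum_univ_three, len]
  omega

/-- positive tests -/
def pos (N : ℕ) (i : Fin N × Fin N) : Finset ℤ :=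
  {emb N 0 i.1, emb N 1 i.2, emb N 2 (i.1 + i.2)}

theorem mem_pos {N : ℕ} {i : Fin N × Fin N} {u : ℤ} : u ∈ pos N i ↔
    u = 4 * N + (i.1 : ℕ) ∨ u = 8 * N + (i.2 : ℕ) ∨ u = -(12 * N + ((i.1 : ℕ) + (i.2 : ℕ))) := by
  simp only [pos, mem_insert, mem_singleton, emb_zero, emb_one, emb_two]
  push_cast
  rfl

theorem pos_subset (N : ℕ) (i : Fin N × Fin N) : pos N i ⊆ rel N := by
  intro u hu
  simp only [pos, mem_insert, mem_singleton] at hu
  rw [mem_rel]
  have h1 := i.1.2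
  have h2 := i.2.2
  rcases hu with rfl | rfl | rfl
  · exact ⟨0, _, by simp [len], rfl⟩
  · exact ⟨1, _, by simp [len], rfl⟩
  · exact ⟨2, _, by simp [len]; omega, rfl⟩

theorem pos_nonempty (N : ℕ) (i : Fin N × Fin N) : (pos N i).Nonempty := ⟨_, mem_insert_self _ _⟩

theorem pos_zeroSum (N : ℕ) (i : Fin N × Fin N) : HasZeroSum (pos N i) := by
  have h1 := i.1.2
  have h2 := i.2.2
  refine ⟨4 * N + (i.1 : ℕ), mem_pos.2 (Or.inl rfl), 8 * N + (i.2 : ℕ),
    mem_pos.2 (Or.inr (Or.inl rfl)), -(12 * N + ((i.1 : ℕ) + (i.2 : ℕ))),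
    mem_pos.2 (Or.inr (Or.inr rfl)), ?_, ?_, ?_, ?_⟩ <;> omega

theorem pos_pair (N : ℕ) (u w : ℤ) (huw : u ≠ w) :
    (univ.filter (fun i => u ∈ pos N i ∧ w ∈ pos N i)).card ≤ 1 := by
  rw [card_le_one]
  intro i hi j hj
  rw [mem_filter, mem_pos, mem_pos] at hi hj
  obtain ⟨-, hi1, hi2⟩ := hi
  obtain ⟨-, hj1, hj2⟩ := hj
  obtain ⟨⟨a, ha⟩, ⟨b, hb⟩⟩ := i
  obtain ⟨⟨c, hc⟩, ⟨d, hd⟩⟩ := j
  simp only [Prod.mk.injEq, Fin.mk.injEq] at *
  rcases hi1 with hi1 | hi1 | hi1 <;> rcases hi2 with hi2 | hi2 | hi2 <;>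
    rcases hj1 with hj1 | hj1 | hj1 <;> rcases hj2 with hj2 | hj2 | hj2 <;> omega

theorem pos_one (N : ℕ) (u : ℤ) : (univ.filter (fun i => u ∈ pos N i)).card ≤ N := by
  classical
  have h : Set.InjOn (fun i : Fin N × Fin N => if 0 < u ∧ u < 6 * N then i.2 else i.1)
      (univ.filter (fun i => u ∈ pos N i) : Finset (Fin N × Fin N)) := by
    intro i hi j hj hij
    rw [mem_coe, mem_filter, mem_pos] at hi hj
    obtain ⟨⟨a, ha⟩, ⟨b, hb⟩⟩ := i
    obtain ⟨⟨c, hc⟩, ⟨d, hd⟩⟩ := j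
    simp only [Prod.mk.injEq, Fin.mk.injEq] at *
    obtain ⟨-, hi⟩ := hi
    obtain ⟨-, hj⟩ := hj
    split_ifs at hij with hu <;> rw [Fin.mk.injEq] at hij <;>
      rcases hi with hi | hi | hi <;> rcases hj with hj | hj | hj <;> omega
  have h2 := card_le_card_of_injOn (t := (univ : Finset (Fin N))) _ (fun i _ => mem_univ _) h
  simpa using h2

section

variable {p : ℕ} [Fact p.Prime]

/-- the target sets -/
def tgt (p : ℕ) [Fact p.Prime] (k : Fin 3) : Finset (ZMod p) :=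
  if k = 2 then univ.filter (fun t => p < 2 * t.val) else univ.filter (fun t => 4 * t.val < p)

theorem card_small (hp5 : 5 ≤ p) :
    p ≤ 4 * (univ.filter (fun t : ZMod p => 4 * t.val < p)).card := by
  have h : (range ((p + 3) / 4)).card ≤ (univ.filter (fun t : ZMod p => 4 * t.val < p)).card := by
    refine card_le_card_of_injOn (fun j => (j : ZMod p)) ?_ ?_
    · intro j hj
      rw [mem_coe, mem_range] at hj
      rw [mem_coe, mem_filter]
      refine ⟨mem_univ _, ?_⟩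
      rw [ZMod.val_natCast_of_lt (by omega)]
      omega
    · intro a ha b hb hab
      rw [mem_coe, mem_range] at ha hb
      have h1 := congrArg ZMod.val hab
      rwa [ZMod.val_natCast_of_lt (by omega), ZMod.val_natCast_of_lt (by omega)] at h1
  rw [card_range] at h
  omega

theorem card_large (hp5 : 5 ≤ p) :
    p ≤ 4 * (univ.filter (fun t : ZMod p => p < 2 * t.val)).card := by
  have h : (range ((p - 1) / 2)).card ≤ (univ.filter (fun t : ZMod p => p < 2 * t.val)).card := by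
    refine card_le_card_of_injOn (fun j => ((p - 1 - j : ℕ) : ZMod p)) ?_ ?_
    · intro j hj
      rw [mem_coe, mem_range] at hj
      rw [mem_coe, mem_filter]
      refine ⟨mem_univ _, ?_⟩
      rw [ZMod.val_natCast_of_lt (by omega)]
      omega
    · intro a ha b hb hab
      rw [mem_coe, mem_range] at ha hb
      have h1 := congrArg ZMod.val hab
      dsimp only at h1
      rw [ZMod.val_natCast_of_lt (by omega), ZMod.val_natCast_of_lt (by omega)] at h1
      omega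
  rw [card_range] at h
  omega

theorem card_tgt (hp5 : 5 ≤ p) (k : Fin 3) : p ≤ 4 * (tgt p k).card := by
  unfold tgt
  split_ifs
  · exact card_large hp5
  · exact card_small hp5

theorem no_common (ω : Om p) (x y : ℕ) (h0 : Good 0 (tgt p 0) ω x) (h1 : Good 1 (tgt p 1) ω y)
    (h2 : Good 2 (tgt p 2) ω (x + y)) : False := by
  have e0 : (0 : Fin 3) ≠ 2 := by decide
  have e1 : (1 : Fin 3) ≠ 2 := by decide
  have e2 : (1 : Fin 3) ≠ 0 := by decide
  have e3 : (2 : Fin 3) ≠ 0 := by decide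
  have e4 : (2 : Fin 3) ≠ 1 := by decide
  simp only [Good, tgt, pr, e0, e1, e2, e3, e4, if_true, if_false, mem_filter, mem_univ,
    true_and] at h0 h1 h2
  have h3 : ω.1 * ((x + y : ℕ) : ZMod p) + (ω.2.1 + ω.2.2) =
      (ω.1 * (x : ZMod p) + ω.2.1) + (ω.1 * (y : ZMod p) + ω.2.2) := by
    push_cast; ring
  rw [h3, ZMod.val_add_of_lt (by omega)] at h2
  omega

/-- the elements of kind `k` of the negative test -/
def negSet (N r : ℕ) (k : Fin 3) {m : ℕ} (ω : Fin m → Om p) : Finset ℕ :=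
  (range (len N k)).filter (fun x => miss (Good k (tgt p k)) ω x < r)

/-- negative tests -/
def neg (N r : ℕ) {m : ℕ} (ω : Fin m → Om p) : Finset ℤ :=
  univ.biUnion fun k : Fin 3 => (negSet N r k ω).image (emb N k)

theorem mem_neg {N r : ℕ} {m : ℕ} {ω : Fin m → Om p} {u : ℤ} :
    u ∈ neg N r ω ↔ ∃ k, ∃ x ∈ negSet N r k ω, emb N k x = u := by
  simp [neg]

theorem neg_subset (N r : ℕ) {m : ℕ} (ω : Fin m → Om p) : neg N r ω ⊆ rel N := by
  intro u hu
  rw [mem_neg] at hu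
  obtain ⟨k, x, hx, rfl⟩ := hu
  rw [mem_rel]
  exact ⟨k, x, mem_range.1 (mem_filter.1 hx).1, rfl⟩

theorem no_triple (N r : ℕ) (ω : Fin (3 * r) → Om p) {x y : ℕ} (hx : x ∈ negSet N r 0 ω)
    (hy : y ∈ negSet N r 1 ω) (hz : x + y ∈ negSet N r 2 ω) : False := by
  have hx2 := (mem_filter.1 hx).2
  have hy2 := (mem_filter.1 hy).2
  have hz2 := (mem_filter.1 hz).2
  have h : (∑ _j : Fin (3 * r), 1) ≤ miss (Good 0 (tgt p 0)) ω x +
      miss (Good 1 (tgt p 1)) ω y + miss (Good 2 (tgt p 2)) ω (x + y) := by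
    unfold miss
    rw [← sum_add_distrib, ← sum_add_distrib]
    refine sum_le_sum fun j _ => ?_
    by_contra hcon
    have h0 : Good 0 (tgt p 0) (ω j) x := by
      by_contra hh; simp [hh] at hcon
    have h1 : Good 1 (tgt p 1) (ω j) y := by
      by_contra hh; simp [hh] at hcon
    have h2 : Good 2 (tgt p 2) (ω j) (x + y) := by
      by_contra hh; simp [hh] at hcon
    exact no_common (ω j) x y h0 h1 h2
  rw [sum_const, card_univ, Fintype.card_fin, smul_eq_mul, mul_one] at h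
  omega

theorem kinds (N r : ℕ) {m : ℕ} (ω : Fin m → Om p) {u : ℤ} (hu : u ∈ neg N r ω) :
    (∃ x ∈ negSet N r 0 ω, u = 4 * N + x ∧ x < N) ∨ (∃ x ∈ negSet N r 1 ω, u = 8 * N + x ∧ x < N) ∨
      (∃ x ∈ negSet N r 2 ω, u = -(12 * N + x) ∧ x < 2 * N) := by
  rw [mem_neg] at hu
  obtain ⟨k, x, hx, rfl⟩ := hu
  have l := mem_range.1 (mem_filter.1 hx).1
  fin_cases k
  · exact Or.inl ⟨x, hx, rfl, l⟩
  · exact Or.inr (Or.inl ⟨x, hx, rfl, l⟩)
  · exact Or.inr (Or.inr ⟨x, hx, rfl, l⟩)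

theorem arith (N : ℕ) (A B C : Finset ℕ)
    (key : ∀ x y z : ℕ, x ∈ A → y ∈ B → z ∈ C → z = x + y → False) {a b c : ℤ}
    (ka : (∃ x ∈ A, a = 4 * N + x ∧ x < N) ∨ (∃ x ∈ B, a = 8 * N + x ∧ x < N) ∨
      (∃ x ∈ C, a = -(12 * N + x) ∧ x < 2 * N))
    (kb : (∃ x ∈ A, b = 4 * N + x ∧ x < N) ∨ (∃ x ∈ B, b = 8 * N + x ∧ x < N) ∨
      (∃ x ∈ C, b = -(12 * N + x) ∧ x < 2 * N))
    (kc : (∃ x ∈ A, c = 4 * N + x ∧ x < N) ∨ (∃ x ∈ B, c = 8 * N + x ∧ x < N) ∨
      (∃ x ∈ C, c = -(12 * N + x) ∧ x < 2 * N)) (hsum : a + b + c = 0) : False := by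
  rcases ka with ⟨x1, hx1, h1, l1⟩ | ⟨x1, hx1, h1, l1⟩ | ⟨x1, hx1, h1, l1⟩ <;>
    rcases kb with ⟨x2, hx2, h2, l2⟩ | ⟨x2, hx2, h2, l2⟩ | ⟨x2, hx2, h2, l2⟩ <;>
    rcases kc with ⟨x3, hx3, h3, l3⟩ | ⟨x3, hx3, h3, l3⟩ | ⟨x3, hx3, h3, l3⟩ <;>
    first
    | omega
    | exact key _ _ _ hx1 hx2 hx3 (by omega)
    | exact key _ _ _ hx1 hx3 hx2 (by omega)
    | exact key _ _ _ hx2 hx1 hx3 (by omega)
    | exact key _ _ _ hx2 hx3 hx1 (by omega)
    | exact key _ _ _ hx3 hx1 hx2 (by omega)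
    | exact key _ _ _ hx3 hx2 hx1 (by omega)

theorem neg_not (N r : ℕ) (ω : Fin (3 * r) → Om p) : ¬ HasZeroSum (neg N r ω) := by
  rintro ⟨a, ha, b, hb, c, hc, hab, hac, hbc, hsum⟩
  refine arith N (negSet N r 0 ω) (negSet N r 1 ω) (negSet N r 2 ω) ?_ (kinds N r ω ha)
    (kinds N r ω hb) (kinds N r ω hc) hsum
  intro x y z hx hy hz hzz
  rw [hzz] at hz
  exact no_triple N r ω hx hy hz

theorem neg_hit (N r : ℕ) (hp : 2 * N ≤ p) (hp5 : 5 ≤ p) (I : Finset ℤ) (hI : I ⊆ rel N)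
    (hcard : 3 * (8 ^ (3 * r) * 2 ^ (r + 7)) < I.card) :
    2 ^ (r ^ 2) * (univ.filter (fun ω : Fin (3 * r) → Om p => Disjoint (neg N r ω) I)).card ≤
      Fintype.card (Fin (3 * r) → Om p) := by
  classical
  set K := 8 ^ (3 * r) * 2 ^ (r + 7) with hK
  set J : Fin 3 → Finset ℕ := fun k => (range (len N k)).filter (fun x => emb N k x ∈ I) with hJ
  have hcov : I ⊆ univ.biUnion fun k : Fin 3 => (J k).image (emb N k) := by
    intro u hu
    obtain ⟨k, x, hx, rfl⟩ := mem_rel.1 (hI hu)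
    rw [mem_biUnion]
    exact ⟨k, mem_univ _, mem_image.2 ⟨x, mem_filter.2 ⟨mem_range.2 hx, hu⟩, rfl⟩⟩
  have hsum : I.card ≤ ∑ k : Fin 3, (J k).card :=
    (card_le_card hcov).trans (card_biUnion_le.trans (sum_le_sum fun k _ => card_image_le))
  have hex : ∃ k, K ≤ (J k).card := by
    by_contra hcon
    push Not at hcon
    rw [Fin.sum_univ_three] at hsum
    have h0 := hcon 0
    have h1 := hcon 1
    have h2 := hcon 2
    omega
  obtain ⟨k, hk⟩ := hex
  have hlen : ∀ x ∈ range (len N k), x < p := by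
    intro x hx
    rw [mem_range] at hx
    refine lt_of_lt_of_le hx ?_
    unfold len
    split_ifs <;> omega
  have hone : ∀ I' ⊆ range (len N k), I'.card *
      (univ.filter (fun a : Om p => 8 * (I'.filter (Good k (tgt p k) a)).card < I'.card)).card ≤
      16 * Fintype.card (Om p) := fun I' hI' =>
    good_one k (tgt p k) (card_tgt hp5 k) I' fun x hx => hlen x (hI' hx)
  have h1 := hit (G := Good k (tgt p k)) (range (len N k)) (L := 2 ^ (r + 7))
    (Nat.one_le_two_pow) hone (3 * r) r (J k) (filter_subset _ _) hk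
  have h2 : (univ.filter (fun ω : Fin (3 * r) → Om p => Disjoint (neg N r ω) I)).card ≤
      nBad (Good k (tgt p k)) (3 * r) r (J k) := by
    unfold nBad
    refine card_le_card fun ω hω => ?_
    rw [mem_filter] at hω ⊢
    refine ⟨mem_univ _, fun x hx => ?_⟩
    by_contra hlt
    rw [not_le] at hlt
    rw [hJ, mem_filter] at hx
    refine (disjoint_left.1 hω.2) ?_ hx.2
    rw [mem_neg]
    exact ⟨k, x, mem_filter.2 ⟨hx.1, hlt⟩, rfl⟩
  have h3 : Fintype.card (Fin (3 * r) → Om p) = Fintype.card (Om p) ^ (3 * r) := by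
    rw [Fintype.card_fun, Fintype.card_fin]
  rw [h3]
  have e1 : (16 : ℕ) ^ r * 2 ^ (3 * r) = 2 ^ (7 * r) := by
    rw [show (16 : ℕ) = 2 ^ 4 by norm_num, ← pow_mul, ← pow_add]
    congr 1; ring
  have e2 : ((2 : ℕ) ^ (r + 7)) ^ r = 2 ^ (r ^ 2) * 2 ^ (7 * r) := by
    rw [← pow_mul, ← pow_add]
    congr 1; ring
  rw [e1, e2] at h1
  have h4 : (2 ^ (r ^ 2) * nBad (Good k (tgt p k)) (3 * r) r (J k)) * 2 ^ (7 * r) ≤
      Fintype.card (Om p) ^ (3 * r) * 2 ^ (7 * r) := by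
    calc _ = nBad (Good k (tgt p k)) (3 * r) r (J k) * (2 ^ (r ^ 2) * 2 ^ (7 * r)) := by ring
      _ ≤ _ := h1
      _ = _ := by ring
  have h5 := Nat.le_of_mul_le_mul_right h4 (by positivity)
  exact (Nat.mul_le_mul_left _ h2).trans h5

end

end Helper54K9.Mono
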