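import Mathlib
import Pool.Agent.Helper54K9.Mono.Tests

/-!
# The lower bound for randomized monotone real circuits for 3SUM
-/

set_option autoImplicit false
set_option linter.unusedSectionVars false

namespace Helper54K9.Mono

open Finset

open Classical in
/-- The random circuit which is `C γ` with probability `w γ` decides with error probability at most
`1 / 3` whether a set of at most `n` integers in `[-W, W]` contains three different elements with
sum zero. -/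
def Decides {κ : ℕ} (n W : ℕ) {Γ : Type} [Fintype Γ] (w : Γ → ℝ)
    (C : Γ → Circuit κ (Set.Icc (-(W : ℤ)) W)) : Prop :=
  ∀ S : Finset ℤ, (∀ a ∈ S, a ∈ Set.Icc (-(W : ℤ)) W) → S.card ≤ n →
    (HasZeroSum S → ∑ γ, (if (C γ).Accepts S then 0 else w γ) ≤ 1 / 3) ∧
      (¬ HasZeroSum S → ∑ γ, (if (C γ).Accepts S then w γ else 0) ≤ 1 / 3)

theorem swap_avg {Γ A : Type*} [Fintype Γ] [Fintype A] (w : Γ → ℝ) (Q : Γ → A → Prop)
    [∀ γ a, Decidable (Q γ a)] (δ : ℝ)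
    (h : ∀ a, ∑ γ, (if Q γ a then w γ else 0) ≤ δ) (hA : 0 < Fintype.card A) :
    ∑ γ, w γ * (((univ.filter (fun a => Q γ a)).card : ℝ) / Fintype.card A) ≤ δ := by
  have hA' : (0 : ℝ) < Fintype.card A := by exact_mod_cast hA
  have h1 : ∀ γ, w γ * (((univ.filter (fun a => Q γ a)).card : ℝ) / Fintype.card A) =
      (∑ a, (if Q γ a then w γ else 0)) / Fintype.card A := fun γ => by
    rw [← sum_filter, sum_const, nsmul_eq_mul]
    ring
  simp_rw [h1]
  rw [← sum_div, sum_comm, div_le_iff₀ hA']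
  refine (sum_le_sum fun a _ => h a).trans ?_
  rw [sum_const, card_univ, nsmul_eq_mul, mul_comm]

/-- the estimate in terms of `N` and `r` -/
theorem estimate {κ : ℕ} (n W N r : ℕ) (hN : 1 ≤ N) (hn : 14 * N ≤ n) (hnW : n ≤ W)
    (hr : N ^ 2 ≤ 2 ^ (r ^ 2))
    {Γ : Type} [Fintype Γ] (w : Γ → ℝ) (hw : ∀ γ, 0 ≤ w γ) (hw1 : ∑ γ, w γ = 1)
    (C : Γ → Circuit κ (Set.Icc (-(W : ℤ)) W)) (hC : Decides n W w C) :
    (N : ℝ) ^ 2 ≤ 36 * (((κ : ℝ) ^ 2 + 1) * (3 * (8 ^ (3 * r) * 2 ^ (r + 7))) ^ 2) *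
      (∑ γ, w γ * (C γ).size + 1) := by
  classical
  obtain ⟨p, hple, hp⟩ := Nat.exists_infinite_primes (2 * N + 5)
  have _ : Fact p.Prime := ⟨hp⟩
  set s : ℕ := 3 * (8 ^ (3 * r) * 2 ^ (r + 7)) with hs
  have hs1 : 1 ≤ s := by
    rw [hs]
    exact Nat.mul_pos (by norm_num) (by positivity)
  set D : ℕ := 2 ^ (r ^ 2) with hD
  have hrelW : ∀ u ∈ rel N, u ∈ Set.Icc (-(W : ℤ)) W := by
    intro u hu
    have h1 := rel_bound hu
    constructor <;> omega
  have hcardrel : (rel N).card ≤ n := (card_rel N).trans (by omega)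
  -- one circuit
  have hone : ∀ γ, (1 : ℝ) ≤
      ((univ.filter (fun ω : Fin (3 * r) → Om p => (C γ).Accepts (neg N r ω))).card : ℝ) /
        Fintype.card (Fin (3 * r) → Om p) +
      ((univ.filter (fun i : Fin N × Fin N => ¬ (C γ).Accepts (pos N i))).card : ℝ) /
        Fintype.card (Fin N × Fin N) +
      (C γ).size * (2 * ((((κ : ℝ) ^ 2 + 1) * (s : ℝ) ^ 2) / (N : ℝ) ^ 2)) + s / N := by
    intro γ
    have h1 := main (P := pos N) (T := fun ω : Fin (3 * r) → Om p => neg N r ω) (R := rel N)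
      (s := s) (D := D) (N := N) (pos_nonempty N) (pos_subset N) hs1 (pos_pair N) (pos_one N)
      (fun I hI hcard => neg_hit N r (by omega) (by omega) I hI hcard) (C γ)
    have hNR : (0 : ℝ) < N := by exact_mod_cast hN
    have hDR : (0 : ℝ) < D := by rw [hD]; positivity
    have hsR : (1 : ℝ) ≤ s := by exact_mod_cast hs1
    have hDN : (N : ℝ) ^ 2 ≤ D := by exact_mod_cast hr
    have hκ : (1 : ℝ) ≤ ((κ : ℝ) ^ 2 + 1) * (s : ℝ) ^ 2 := by
      have : (1 : ℝ) ≤ (s : ℝ) ^ 2 := one_le_pow₀ hsR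
      nlinarith [sq_nonneg (κ : ℝ)]
    set K : ℝ := ((κ : ℝ) ^ 2 + 1) * (s : ℝ) ^ 2 with hK
    have hKN : 0 ≤ K / (N : ℝ) ^ 2 := by positivity
    have hsz : (0 : ℝ) ≤ (C γ).size := Nat.cast_nonneg _
    have hΩ : (0 : ℝ) < Fintype.card (Fin (3 * r) → Om p) := by
      exact_mod_cast Fintype.card_pos
    have hι : (Fintype.card (Fin N × Fin N) : ℝ) = (N : ℝ) ^ 2 := by
      rw [Fintype.card_prod, Fintype.card_fin]; push_cast; ring
    rw [hι]
    have e1 : 0 ≤ ((univ.filter (fun i : Fin N × Fin N => ¬ (C γ).Accepts (pos N i))).card : ℝ) /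
        (N : ℝ) ^ 2 := by positivity
    have e2 : 0 ≤ ((univ.filter (fun ω : Fin (3 * r) → Om p =>
        (C γ).Accepts (neg N r ω))).card : ℝ) / Fintype.card (Fin (3 * r) → Om p) := by positivity
    have e3 : 0 ≤ (s : ℝ) / N := by positivity
    rcases h1 with h1 | h1
    · have h2 : (D : ℝ) * Fintype.card (Fin (3 * r) → Om p) ≤
          D * (univ.filter (fun ω : Fin (3 * r) → Om p => (C γ).Accepts (neg N r ω))).card +
            (C γ).size * Fintype.card (Fin (3 * r) → Om p) := by exact_mod_cast h1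
      have h3 : (1 : ℝ) ≤
          ((univ.filter (fun ω : Fin (3 * r) → Om p => (C γ).Accepts (neg N r ω))).card : ℝ) /
            Fintype.card (Fin (3 * r) → Om p) + (C γ).size / D := by
        rw [div_add_div _ _ hΩ.ne' hDR.ne', le_div_iff₀ (by positivity)]
        linarith
      have h4 : ((C γ).size : ℝ) / D ≤ (C γ).size * (2 * (K / (N : ℝ) ^ 2)) := by
        rw [div_eq_mul_inv]
        refine mul_le_mul_of_nonneg_left ?_ hsz
        have h5 : (D : ℝ)⁻¹ ≤ ((N : ℝ) ^ 2)⁻¹ := inv_anti₀ (by positivity) hDN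
        have h6 : ((N : ℝ) ^ 2)⁻¹ ≤ K / (N : ℝ) ^ 2 := by
          rw [div_eq_mul_inv]
          exact le_mul_of_one_le_left (by positivity) hκ
        linarith
      linarith
    · have h2 : (Fintype.card (Fin N × Fin N) : ℝ) ≤
          (univ.filter (fun i : Fin N × Fin N => ¬ (C γ).Accepts (pos N i))).card +
            (C γ).size * K + s * N := by
        rw [hK]; exact_mod_cast h1
      rw [hι] at h2
      have hN2 : (0 : ℝ) < (N : ℝ) ^ 2 := by positivity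
      have h3 : (1 : ℝ) ≤
          ((univ.filter (fun i : Fin N × Fin N => ¬ (C γ).Accepts (pos N i))).card : ℝ) /
            (N : ℝ) ^ 2 + (C γ).size * (K / (N : ℝ) ^ 2) + s / N := by
        have h4 : ((univ.filter (fun i : Fin N × Fin N => ¬ (C γ).Accepts (pos N i))).card : ℝ) /
            (N : ℝ) ^ 2 + (C γ).size * (K / (N : ℝ) ^ 2) + s / N =
            (((univ.filter (fun i : Fin N × Fin N => ¬ (C γ).Accepts (pos N i))).card : ℝ) +
            (C γ).size * K + s * N) / (N : ℝ) ^ 2 := by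
          field_simp
        rw [h4, le_div_iff₀ hN2, one_mul]
        exact h2
      have h5 : ((C γ).size : ℝ) * (K / (N : ℝ) ^ 2) ≤ (C γ).size * (2 * (K / (N : ℝ) ^ 2)) :=
        mul_le_mul_of_nonneg_left (by linarith) hsz
      linarith
  -- the average
  have hΩ : 0 < Fintype.card (Fin (3 * r) → Om p) := Fintype.card_pos
  have hι0 : 0 < Fintype.card (Fin N × Fin N) := by
    rw [Fintype.card_prod, Fintype.card_fin]; positivity
  have hminus := swap_avg w (fun γ (ω : Fin (3 * r) → Om p) => (C γ).Accepts (neg N r ω)) (1 / 3)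
    (fun ω => (hC (neg N r ω) (fun a ha => hrelW a (neg_subset N r ω ha))
      ((card_le_card (neg_subset N r ω)).trans hcardrel)).2 (neg_not N r ω)) hΩ
  have hplus := swap_avg w (fun γ (i : Fin N × Fin N) => ¬ (C γ).Accepts (pos N i)) (1 / 3)
    (fun i => by
      have h1 := (hC (pos N i) (fun a ha => hrelW a (pos_subset N i ha))
        ((card_le_card (pos_subset N i)).trans hcardrel)).1 (pos_zeroSum N i)
      refine le_trans (le_of_eq (sum_congr rfl fun γ _ => ?_)) h1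
      by_cases hacc : (C γ).Accepts (pos N i) <;> simp [hacc]) hι0
  have hsum : ∑ γ, w γ * 1 ≤ ∑ γ, w γ * (
      ((univ.filter (fun ω : Fin (3 * r) → Om p => (C γ).Accepts (neg N r ω))).card : ℝ) /
        Fintype.card (Fin (3 * r) → Om p) +
      ((univ.filter (fun i : Fin N × Fin N => ¬ (C γ).Accepts (pos N i))).card : ℝ) /
        Fintype.card (Fin N × Fin N) +
      (C γ).size * (2 * ((((κ : ℝ) ^ 2 + 1) * (s : ℝ) ^ 2) / (N : ℝ) ^ 2)) + s / N) :=
    sum_le_sum fun γ _ => mul_le_mul_of_nonneg_left (hone γ) (hw γ)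
  simp_rw [mul_one, mul_add] at hsum
  rw [hw1, sum_add_distrib, sum_add_distrib, sum_add_distrib, ← sum_mul, hw1, one_mul] at hsum
  set X : ℝ := (((κ : ℝ) ^ 2 + 1) * (s : ℝ) ^ 2) / (N : ℝ) ^ 2 with hX
  have hT : ∑ γ, w γ * ((C γ).size * (2 * X)) = (∑ γ, w γ * (C γ).size) * (2 * X) := by
    rw [sum_mul]
    exact sum_congr rfl fun γ _ => by ring
  have hT' : ∑ γ, w γ * (((C γ).size : ℝ) * (2 * X)) = (∑ γ, w γ * (C γ).size) * (2 * X) := hT
  set T : ℝ := ∑ γ, w γ * ((C γ).size : ℝ) with hTdef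
  have hT0 : 0 ≤ T := sum_nonneg fun γ _ => mul_nonneg (hw γ) (Nat.cast_nonneg _)
  have hfin : (1 : ℝ) ≤ 1 / 3 + 1 / 3 + T * (2 * X) + s / N := by
    refine hsum.trans ?_
    rw [hT']
    exact add_le_add (add_le_add (add_le_add hminus hplus) le_rfl) le_rfl
  have hNR : (0 : ℝ) < N := by exact_mod_cast hN
  have hsR : (1 : ℝ) ≤ s := by exact_mod_cast hs1
  have hcast : (s : ℝ) = 3 * (8 ^ (3 * r) * 2 ^ (r + 7)) := by rw [hs]; push_cast; ring
  rw [← hcast]
  set K : ℝ := ((κ : ℝ) ^ 2 + 1) * (s : ℝ) ^ 2 with hK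
  have hK0 : 0 ≤ K := by positivity
  have hKs : (s : ℝ) ^ 2 ≤ K := by
    rw [hK]
    nlinarith [sq_nonneg (κ : ℝ), sq_nonneg (s : ℝ)]
  have hkey : (N : ℝ) ^ 2 ≤ 6 * (T * K) + 3 * (s * N) := by
    have h1 : (N : ℝ) ^ 2 * 1 ≤ (N : ℝ) ^ 2 * (1 / 3 + 1 / 3 + T * (2 * X) + s / N) :=
      mul_le_mul_of_nonneg_left hfin (by positivity)
    have h2 : (N : ℝ) ^ 2 * (1 / 3 + 1 / 3 + T * (2 * X) + s / N) =
        2 / 3 * (N : ℝ) ^ 2 + 2 * (T * K) + s * N := by
      rw [hX]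
      field_simp
      ring
    rw [h2] at h1
    linarith
  have h4 : 0 ≤ T * K := mul_nonneg hT0 hK0
  have e : 36 * K * (T + 1) = 36 * (T * K) + 36 * K := by ring
  rw [e]
  rcases le_or_gt (6 * (s : ℝ)) N with hbig | hsmall
  · have h3 : 6 * (s : ℝ) * N ≤ N * N := mul_le_mul_of_nonneg_right hbig hNR.le
    have h5 : (N : ℝ) ^ 2 = N * N := by ring
    have h6 : 3 * ((s : ℝ) * N) = (6 * (s : ℝ) * N) / 2 := by ring
    linarith
  · have h3 : (N : ℝ) ^ 2 ≤ (6 * (s : ℝ)) ^ 2 := pow_le_pow_left₀ hNR.le hsmall.le 2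
    have h5 : (6 * (s : ℝ)) ^ 2 = 36 * (s : ℝ) ^ 2 := by ring
    linarith

/-- **Main theorem.** -/
theorem lower_bound {κ : ℕ} (n W : ℕ) (hn : 1 ≤ n) (hnW : n ≤ W)
    {Γ : Type} [Fintype Γ] (w : Γ → ℝ) (hw : ∀ γ, 0 ≤ w γ) (hw1 : ∑ γ, w γ = 1)
    (C : Γ → Circuit κ (Set.Icc (-(W : ℤ)) W)) (hC : Decides n W w C) :
    (n : ℝ) ^ 2 ≤ ((κ : ℝ) ^ 2 + 1) * 2 ^ (92 * √(Real.logb 2 n)) *
      (∑ γ, w γ * (C γ).size + 1) := by
  have hT0 : 0 ≤ ∑ γ, w γ * ((C γ).size : ℝ) :=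
    sum_nonneg fun γ _ => mul_nonneg (hw γ) (Nat.cast_nonneg _)
  have hκ : (1 : ℝ) ≤ (κ : ℝ) ^ 2 + 1 := by nlinarith [sq_nonneg (κ : ℝ)]
  rcases Nat.lt_or_ge n 2 with hn2 | hn2
  · have hn1 : n = 1 := by omega
    subst hn1
    simp only [Nat.cast_one, Real.logb_one, Real.sqrt_zero, mul_zero, Real.rpow_zero, one_pow,
      mul_one]
    nlinarith
  have hnR : (2 : ℝ) ≤ n := by exact_mod_cast hn2
  set ℓ : ℝ := Real.logb 2 n with hℓ
  have hℓ1 : 1 ≤ ℓ := by
    rw [hℓ, Real.le_logb_iff_rpow_le (by norm_num) (by linarith), Real.rpow_one]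
    exact hnR
  have hsq1 : 1 ≤ √ℓ := by
    rw [Real.one_le_sqrt]; exact hℓ1
  rcases Nat.lt_or_ge n 14 with hn14 | hn14
  · have h1 : (n : ℝ) ≤ 14 := by exact_mod_cast hn14.le
    have h2 : (n : ℝ) ^ 2 ≤ 196 := by nlinarith
    have h3 : (256 : ℝ) ≤ 2 ^ (92 * √ℓ) := by
      calc (256 : ℝ) = 2 ^ (8 : ℝ) := by norm_num
        _ ≤ 2 ^ (92 * √ℓ) := Real.rpow_le_rpow_of_exponent_le (by norm_num) (by linarith)
    calc (n : ℝ) ^ 2 ≤ 256 := by linarith
      _ ≤ 2 ^ (92 * √ℓ) := h3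
      _ ≤ ((κ : ℝ) ^ 2 + 1) * 2 ^ (92 * √ℓ) := le_mul_of_one_le_left (by positivity) hκ
      _ ≤ _ := le_mul_of_one_le_right (by positivity) (by linarith)
  · set N := n / 14 with hN
    have hN1 : 1 ≤ N := by omega
    set r := Nat.sqrt (2 * (Nat.log 2 N + 1)) + 1 with hr
    have hr2 : N ^ 2 ≤ 2 ^ (r ^ 2) := by
      have h1 : N < 2 ^ (Nat.log 2 N + 1) := Nat.lt_pow_succ_log_self (by norm_num) N
      have h2 : 2 * (Nat.log 2 N + 1) < r ^ 2 := by
        rw [hr, pow_two]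
        exact Nat.lt_succ_sqrt _
      calc N ^ 2 ≤ (2 ^ (Nat.log 2 N + 1)) ^ 2 := Nat.pow_le_pow_left h1.le 2
        _ = 2 ^ (2 * (Nat.log 2 N + 1)) := by rw [← pow_mul]; congr 1; ring
        _ ≤ 2 ^ (r ^ 2) := Nat.pow_le_pow_right (by norm_num) h2.le
    have hest := estimate n W N r hN1 (by omega) hnW hr2 w hw hw1 C hC
    have hnN : (n : ℝ) ≤ 28 * N := by
      have : n ≤ 28 * N := by omega
      exact_mod_cast this
    have hNR : (0 : ℝ) < N := by exact_mod_cast hN1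
    have hrle : (r : ℝ) ≤ 3 * √ℓ := by
      have h1 : ((Nat.sqrt (2 * (Nat.log 2 N + 1)) : ℕ) : ℝ) ≤
          √((2 * (Nat.log 2 N + 1) : ℕ) : ℝ) := Real.nat_sqrt_le_real_sqrt
      have h2 : (Nat.log 2 N : ℝ) ≤ ℓ := by
        rw [hℓ, Real.le_logb_iff_rpow_le (by norm_num) (by linarith), Real.rpow_natCast]
        have h3 : 2 ^ (Nat.log 2 N) ≤ N := Nat.pow_log_le_self 2 (by omega)
        have h4 : 2 ^ (Nat.log 2 N) ≤ n := h3.trans (by omega)
        exact_mod_cast h4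
      have h5 : √((2 * (Nat.log 2 N + 1) : ℕ) : ℝ) ≤ 2 * √ℓ := by
        rw [show (2 : ℝ) * √ℓ = √(4 * ℓ) by
          rw [Real.sqrt_mul (by norm_num), show (4 : ℝ) = 2 ^ 2 by norm_num,
            Real.sqrt_sq (by norm_num)]]
        refine Real.sqrt_le_sqrt ?_
        push_cast
        linarith
      have h6 : (r : ℝ) = ((Nat.sqrt (2 * (Nat.log 2 N + 1)) : ℕ) : ℝ) + 1 := by
        rw [hr]; push_cast; ring
      rw [h6]
      linarith
    have hpow : (36 : ℝ) * 784 * (3 * (8 ^ (3 * r) * 2 ^ (r + 7))) ^ 2 ≤ 2 ^ (92 * √ℓ) := by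
      have e1 : ((3 : ℝ) * (8 ^ (3 * r) * 2 ^ (r + 7))) ^ 2 = 9 * 2 ^ (20 * r + 14) := by
        rw [show (8 : ℝ) = 2 ^ 3 by norm_num, ← pow_mul, ← pow_add, mul_pow, ← pow_mul]
        norm_num
        ring
      rw [e1]
      calc (36 : ℝ) * 784 * (9 * 2 ^ (20 * r + 14)) = 254016 * 2 ^ (20 * r + 14) := by ring
        _ ≤ 2 ^ 18 * 2 ^ (20 * r + 14) := by
            refine mul_le_mul_of_nonneg_right (by norm_num) (by positivity)
        _ = 2 ^ (((20 * r + 32 : ℕ)) : ℝ) := by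
            rw [Real.rpow_natCast, ← pow_add]; congr 1; ring
        _ ≤ 2 ^ (92 * √ℓ) := by
            refine Real.rpow_le_rpow_of_exponent_le (by norm_num) ?_
            push_cast
            linarith
    calc (n : ℝ) ^ 2 ≤ 784 * (N : ℝ) ^ 2 := by nlinarith
      _ ≤ 784 * (36 * (((κ : ℝ) ^ 2 + 1) * (3 * (8 ^ (3 * r) * 2 ^ (r + 7))) ^ 2) *
            (∑ γ, w γ * (C γ).size + 1)) := by linarith
      _ = ((κ : ℝ) ^ 2 + 1) * (36 * 784 * (3 * (8 ^ (3 * r) * 2 ^ (r + 7))) ^ 2) *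
            (∑ γ, w γ * (C γ).size + 1) := by ring
      _ ≤ _ := by
          refine mul_le_mul_of_nonneg_right ?_ (by linarith)
          exact mul_le_mul_of_nonneg_left hpow (by linarith)

end Helper54K9.Mono
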