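import Mathlib
import Pool.Agent.Helper54K9.Mono.Tests

/-!
# The trivial monotone circuit for 3SUM
-/

set_option autoImplicit false

namespace Helper54K9.Mono

open Finset

/-- the pair with the number `i` -/
def fstZ (W i : ℕ) : ℤ := ((i / (2 * W + 1) : ℕ) : ℤ) - W
def sndZ (W i : ℕ) : ℤ := ((i % (2 * W + 1) : ℕ) : ℤ) - W
def thdZ (W i : ℕ) : ℤ := -(fstZ W i + sndZ W i)

def Valid (W i : ℕ) : Prop := fstZ W i ≠ sndZ W i ∧ fstZ W i ≠ thdZ W i ∧ sndZ W i ≠ thdZ W i ∧
  fstZ W i ∈ Set.Icc (-(W : ℤ)) W ∧ sndZ W i ∈ Set.Icc (-(W : ℤ)) W ∧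
  thdZ W i ∈ Set.Icc (-(W : ℤ)) W

open Classical in
noncomputable def ins (W i : ℕ) : Fin 3 → Finset ℤ → ℝ :=
  if Valid W i then ![input (fstZ W i), input (sndZ W i), input (thdZ W i)]
  else fun _ _ => 0

noncomputable def andGate (W i : ℕ) : Finset ℤ → ℝ :=
  fun S => univ.inf' univ_nonempty (fun j => ins W i j S)

noncomputable def gates (W i : ℕ) : Finset ℤ → ℝ :=
  if i < (2 * W + 1) ^ 2 then andGate W i
  else fun S => univ.sup' univ_nonempty (fun j : Fin ((2 * W + 1) ^ 2 - 1 + 1) => andGate W j S)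

theorem input_pos {v : ℤ} {S : Finset ℤ} : 0 < input v S ↔ v ∈ S := by
  unfold input
  split_ifs with h <;> simp [h]

theorem andGate_pos (W i : ℕ) (S : Finset ℤ) : 0 < andGate W i S ↔
    Valid W i ∧ fstZ W i ∈ S ∧ sndZ W i ∈ S ∧ thdZ W i ∈ S := by
  unfold andGate
  rw [lt_inf'_iff]
  unfold ins
  split_ifs with h
  · simp [h, Fin.forall_fin_succ, input_pos]
  · simp [h]

noncomputable def trivialCircuit (W : ℕ) : Circuit 0 (Set.Icc (-(W : ℤ)) W) where
  size := (2 * W + 1) ^ 2 + 1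
  gate := gates W
  isGate := by
    intro i hi
    rcases Nat.lt_or_ge i ((2 * W + 1) ^ 2) with h | h
    · have e : gates W i = andGate W i := if_pos h
      rw [e]
      refine Gate.min 2 (ins W i) fun j => ?_
      unfold ins
      split_ifs with hv
      · obtain ⟨-, -, -, h1, h2, h3⟩ := hv
        fin_cases j
        · exact Avail.input _ h1
        · exact Avail.input _ h2
        · exact Avail.input _ h3
      · exact Avail.const 0
    · have e : gates W i = fun S => univ.sup' univ_nonempty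
          (fun j : Fin ((2 * W + 1) ^ 2 - 1 + 1) => andGate W j S) := if_neg (by omega)
      rw [e]
      refine Gate.max ((2 * W + 1) ^ 2 - 1) (fun j => andGate W j) fun j => ?_
      have hpos : 0 < (2 * W + 1) ^ 2 := by positivity
      have hj : (j : ℕ) < (2 * W + 1) ^ 2 := by have := j.2; omega
      have e2 : andGate W j = gates W j := (if_pos hj).symm
      rw [e2]
      exact Avail.gate _ (by omega)
  out := gates W ((2 * W + 1) ^ 2)
  isOut := Avail.gate _ (Nat.lt_succ_self _)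

theorem trivial_accepts (W : ℕ) (S : Finset ℤ) (hS : ∀ a ∈ S, a ∈ Set.Icc (-(W : ℤ)) W) :
    (trivialCircuit W).Accepts S ↔ HasZeroSum S := by
  have e : (trivialCircuit W).out = fun S => univ.sup' univ_nonempty
      (fun j : Fin ((2 * W + 1) ^ 2 - 1 + 1) => andGate W j S) :=
    if_neg (lt_irrefl _)
  unfold Circuit.Accepts
  rw [e, lt_sup'_iff]
  simp only [andGate_pos]
  constructor
  · rintro ⟨j, -, ⟨h1, h2, h3, -⟩, h4, h5, h6⟩
    exact ⟨_, h4, _, h5, _, h6, h1, h2, h3, by unfold thdZ; ring⟩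
  · rintro ⟨a, ha, b, hb, c, hc, hab, hac, hbc, hsum⟩
    have ha2 := hS a ha
    have hb2 := hS b hb
    have hc2 := hS c hc
    obtain ⟨x, hx⟩ : ∃ x : ℕ, a + W = x := ⟨(a + W).toNat, by
      rw [Int.toNat_of_nonneg]; have := ha2.1; omega⟩
    obtain ⟨y, hy⟩ : ∃ y : ℕ, b + W = y := ⟨(b + W).toNat, by
      rw [Int.toNat_of_nonneg]; have := hb2.1; omega⟩
    have hxM : x < 2 * W + 1 := by have := ha2.2; omega
    have hyM : y < 2 * W + 1 := by have := hb2.2; omega
    have hlt : x * (2 * W + 1) + y < (2 * W + 1) ^ 2 := by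
      calc x * (2 * W + 1) + y < x * (2 * W + 1) + (2 * W + 1) := by omega
        _ = (x + 1) * (2 * W + 1) := by ring
        _ ≤ (2 * W + 1) * (2 * W + 1) := Nat.mul_le_mul_right _ hxM
        _ = _ := by ring
    have hd : (x * (2 * W + 1) + y) / (2 * W + 1) = x := by
      rw [Nat.add_comm, Nat.add_mul_div_right _ _ (by omega), Nat.div_eq_of_lt hyM, zero_add]
    have hm : (x * (2 * W + 1) + y) % (2 * W + 1) = y := by
      rw [Nat.add_comm, Nat.add_mul_mod_self_right, Nat.mod_eq_of_lt hyM]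
    have h1 : fstZ W (x * (2 * W + 1) + y) = a := by
      unfold fstZ; rw [hd]; omega
    have h2 : sndZ W (x * (2 * W + 1) + y) = b := by
      unfold sndZ; rw [hm]; omega
    have h3 : thdZ W (x * (2 * W + 1) + y) = c := by
      unfold thdZ; rw [h1, h2]; omega
    refine ⟨⟨x * (2 * W + 1) + y, by omega⟩, mem_univ _, ?_, ?_⟩
    · unfold Valid
      dsimp only
      rw [h1, h2, h3]
      exact ⟨hab, hac, hbc, ha2, hb2, hc2⟩
    · dsimp only
      rw [h1, h2, h3]
      exact ⟨ha, hb, hc⟩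

end Helper54K9.Mono
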